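import Pool.Agent.H4.FV.OddT

set_option autoImplicit false

/-! Transport of the axioms along an isomorphism of algebras: `S_trans`. -/

namespace Pool.Agent.H168.FV

open Pool.Agent.H4.FV.Odd

section

variable {p : ℕ} {A A' : Type} [NonUnitalNonAssocRing A] [Module (ZMod p) A]
  [NonUnitalNonAssocRing A'] [Module (ZMod p) A'] (e : A ≃ₗ[ZMod p] A')

theorem fsurj {ι : Type} (f : ι → A') : ∃ g : ι → A, f = fun i => e (g i) :=
  ⟨fun i => e.symm (f i), by funext i; simp⟩

theorem lc_map {ι : Type} [Fintype ι] (u : ι → A) (c : ι → ZMod p) :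
    e (lcA p u c) = lcA p (fun i => e (u i)) c := by
  unfold lcA
  rw [map_sum]
  simp only [map_smul]

theorem vec3 (v y z : A) : (fun i => e (![v, y, z] i)) = ![e v, e y, e z] := by
  funext i
  fin_cases i <;> rfl

theorem vec2 (v y : A) : (fun i => e (![v, y] i)) = ![e v, e y] := by
  funext i
  fin_cases i <;> rfl

theorem vec4 (v w a b : A) : (fun i => e (![v, w, a, b] i)) = ![e v, e w, e a, e b] := by
  funext i
  fin_cases i <;> rfl

theorem cf_map {n m : ℕ} (v y z : Fin n → A) (a b : Fin m → A) :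
    (fun i => e (cf v y z a b i)) = cf (fun i => e (v i)) (fun i => e (y i)) (fun i => e (z i))
      (fun i => e (a i)) (fun i => e (b i)) := by
  funext i
  rcases i with ⟨i, j⟩ | ⟨i, j⟩
  · fin_cases j <;> rfl
  · fin_cases j <;> rfl

theorem cf'_map {n m : ℕ} (v y z : Fin n → A) (v' w' a b : Fin m → A) :
    (fun i => e (cf' v y z v' w' a b i)) = cf' (fun i => e (v i)) (fun i => e (y i))
      (fun i => e (z i)) (fun i => e (v' i)) (fun i => e (w' i)) (fun i => e (a i))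
      (fun i => e (b i)) := by
  funext i
  rcases i with ⟨i, j⟩ | ⟨i, j⟩
  · fin_cases j <;> rfl
  · fin_cases j <;> rfl

variable (he : ∀ x y : A, e (x * y) = e x * e y)

include he

theorem mul_zero_iff (x y : A) : e x * e y = 0 ↔ x * y = 0 := by
  rw [← he]
  exact e.map_eq_zero_iff

theorem bl_map {ι : Type} [Fintype ι] (u : ι → A) (C : ι → ι → ZMod p) :
    e (blA p u C) = blA p (fun i => e (u i)) C := by
  unfold blA
  simp only [map_sum, map_smul, he]

theorem ct_iff (z : A) : Ct z ↔ Ct (e z) := by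
  constructor
  · intro h x'
    obtain ⟨x, rfl⟩ := e.surjective x'
    rw [← he, h x, map_zero]
  · intro h x
    exact (mul_zero_iff e he z x).1 (h (e x))

theorem ind_iff {ι : Type} [Fintype ι] (u : ι → A) : IndA p u ↔ IndA p (fun i => e (u i)) := by
  unfold IndA
  simp only [← lc_map, ← ct_iff e he]

theorem ins_iff {ι : Type} [Fintype ι] (u : ι → A) (x : A) :
    InSA p u x ↔ InSA p (fun i => e (u i)) (e x) := by
  unfold InSA
  simp only [← lc_map, ← map_add, ← ct_iff e he]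

theorem tri_iff (v y z : A) : TriA p v y z ↔ TriA p (e v) (e y) (e z) := by
  unfold TriA
  rw [mul_zero_iff e he, mul_zero_iff e he, ind_iff e he, vec3]

theorem vt_iff (v : A) : VtA p v ↔ VtA p (e v) := by
  constructor
  · rintro ⟨y, z, h⟩
    exact ⟨e y, e z, (tri_iff e he v y z).1 h⟩
  · rintro ⟨y', z', h⟩
    obtain ⟨y, rfl⟩ := e.surjective y'
    obtain ⟨z, rfl⟩ := e.surjective z'
    exact ⟨y, z, (tri_iff e he v y z).2 h⟩

theorem ev_iff (v w : A) : EvA p v w ↔ EvA p (e v) (e w) := ins_iff e he _ w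

theorem qd_iff (v w a b : A) : QdA p v w a b ↔ QdA p (e v) (e w) (e a) (e b) := by
  unfold QdA
  rw [← vt_iff e he, ← vt_iff e he, ind_iff e he, vec4, ← he, ← he, ← map_add, e.map_eq_zero_iff]

theorem aj_iff (v w : A) : AjA p v w ↔ AjA p (e v) (e w) := by
  constructor
  · rintro ⟨a, b, h⟩
    exact ⟨e a, e b, (qd_iff e he v w a b).1 h⟩
  · rintro ⟨a', b', h⟩
    obtain ⟨a, rfl⟩ := e.surjective a'
    obtain ⟨b, rfl⟩ := e.surjective b'
    exact ⟨a, b, (qd_iff e he v w a b).2 h⟩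

theorem cfg_of {n m : ℕ} {s t : Fin m → Fin n} {v y z : Fin n → A} {a b : Fin m → A}
    (h : CfgA p s t (fun i => e (v i)) (fun i => e (y i)) (fun i => e (z i)) (fun i => e (a i))
      (fun i => e (b i))) : CfgA p s t v y z a b where
  tri := fun i => (tri_iff e he _ _ _).2 (h.tri i)
  ne := fun i j hij h1 => h.ne i j hij ((ev_iff e he _ _).1 h1)
  qd := fun k => (qd_iff e he _ _ _ _).2 (h.qd k)

theorem faa (h : FAA p A) : FAA p A' where
  cen := by
    intro v' y' z' x' h1 h2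
    obtain ⟨v, rfl⟩ := e.surjective v'
    obtain ⟨y, rfl⟩ := e.surjective y'
    obtain ⟨z, rfl⟩ := e.surjective z'
    obtain ⟨x, rfl⟩ := e.surjective x'
    rw [← tri_iff e he] at h1
    rw [mul_zero_iff e he] at h2
    rw [← vec3, ← ins_iff e he]
    exact h.cen v y z x h1 h2
  wit := by
    intro v₁ w₁ a₁ b₁ a₂ b₂ h1 h2
    obtain ⟨v, rfl⟩ := e.surjective v₁
    obtain ⟨w, rfl⟩ := e.surjective w₁
    obtain ⟨a, rfl⟩ := e.surjective a₁
    obtain ⟨b, rfl⟩ := e.surjective b₁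
    obtain ⟨a', rfl⟩ := e.surjective a₂
    obtain ⟨b', rfl⟩ := e.surjective b₂
    rw [← qd_iff e he] at h1 h2
    rw [← vec2, ← ins_iff e he, ← ins_iff e he]
    exact h.wit v w a b a' b' h1 h2
  ind := by
    intro n m s t hS v₁ y₁ z₁ a₁ b₁ hC
    obtain ⟨v, rfl⟩ := fsurj e v₁
    obtain ⟨y, rfl⟩ := fsurj e y₁
    obtain ⟨z, rfl⟩ := fsurj e z₁
    obtain ⟨a, rfl⟩ := fsurj e a₁
    obtain ⟨b, rfl⟩ := fsurj e b₁
    rw [← cf_map, ← ind_iff e he]
    exact h.ind n m s t hS v y z a b (cfg_of e he hC)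
  rel := by
    intro n m s t hS C h1 h2 h3 v₁ y₁ z₁ a₁ b₁ hC
    obtain ⟨v, rfl⟩ := fsurj e v₁
    obtain ⟨y, rfl⟩ := fsurj e y₁
    obtain ⟨z, rfl⟩ := fsurj e z₁
    obtain ⟨a, rfl⟩ := fsurj e a₁
    obtain ⟨b, rfl⟩ := fsurj e b₁
    rw [← cf_map, ← bl_map e he]
    intro h0
    exact h.rel n m s t hS C h1 h2 h3 v y z a b (cfg_of e he hC) (e.map_eq_zero_iff.1 h0)
  fin := by
    intro r C h1 h2 u₁ h3 h4
    obtain ⟨u, rfl⟩ := fsurj e u₁
    rw [← ind_iff e he] at h3
    rw [← bl_map e he, e.map_eq_zero_iff] at h4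
    obtain ⟨n, m, v, y, z, v', w', a, b, k1, k2, k3⟩ := h.fin r C h1 h2 u h3 h4
    refine ⟨n, m, fun i => e (v i), fun i => e (y i), fun i => e (z i), fun i => e (v' i),
      fun i => e (w' i), fun i => e (a i), fun i => e (b i), fun i => (tri_iff e he _ _ _).1 (k1 i),
      fun k => (qd_iff e he _ _ _ _).1 (k2 k), fun i => ?_⟩
    rw [← cf'_map, ← ins_iff e he]
    exact k3 i
  inf := by
    intro n
    obtain ⟨v, h1, h2⟩ := h.inf n
    exact ⟨fun i => e (v i), fun i => (vt_iff e he _).1 (h1 i),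
      fun i j hij h3 => h2 i j hij ((ev_iff e he _ _).2 h3)⟩

end

theorem trans : S_trans := by
  intro p _ A A' _ _ _ _ e he h
  exact ⟨faa e he h, vt_iff e he, ev_iff e he, aj_iff e he⟩

end Pool.Agent.H168.FV
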